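import Pool.Agent.R161.GR.Defs

/-!
# MP_57d9fd_an, piece BLK: block lemma for idempotents modulo `m ^ 2`
-/

open scoped Matrix

namespace Pool.Agent.R806.GR

open Pool.Agent.R161.GR

/-- the ring homomorphism `ℝ → ℂ → R` -/
noncomputable def phi (R : Type) [CommRing R] [Algebra ℂ R] : ℝ →+* R :=
  (algebraMap ℂ R).comp Complex.ofRealHom

theorem phi_apply (R : Type) [CommRing R] [Algebra ℂ R] (r : ℝ) :
    phi R r = algebraMap ℂ R (r : ℂ) := rfl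

theorem bil_eq {n : ℕ} {R : Type} [CommRing R] [Algebra ℂ R] (Δ : Matrix (Fin n) (Fin n) R)
    (v w : Fin n → ℝ) :
    ∑ p, ∑ q, algebraMap ℂ R ((v p : ℂ) * (w q : ℂ)) * Δ p q =
      (fun p => phi R (v p)) ⬝ᵥ (Δ *ᵥ fun q => phi R (w q)) := by
  simp only [dotProduct, Matrix.mulVec, Finset.mul_sum]
  refine Finset.sum_congr rfl fun p _ => Finset.sum_congr rfl fun q _ => ?_
  rw [map_mul, phi_apply, phi_apply]
  ring

theorem dot_mem {n : ℕ} {R : Type} [CommRing R] (m : Ideal R) (a b : Fin n → R)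
    (h : ∀ i, b i ∈ m) : a ⬝ᵥ b ∈ m :=
  Ideal.sum_mem _ fun i _ => Ideal.mul_mem_left _ _ (h i)

theorem mulVec_mem {n : ℕ} {R : Type} [CommRing R] (m : Ideal R) (Δ : Matrix (Fin n) (Fin n) R)
    (b : Fin n → R) (h : ∀ i j, Δ i j ∈ m) (i : Fin n) : (Δ *ᵥ b) i ∈ m := by
  show ∑ j, Δ i j * b j ∈ m
  exact Ideal.sum_mem _ fun j _ => Ideal.mul_mem_right _ _ (h i j)

theorem s_blk : S_blk := by
  intro n P₁ hP hPt R _ _ Q hQ hQt m hm v w
  set P : Matrix (Fin n) (Fin n) R := P₁.map (phi R) with hPdef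
  set Δ : Matrix (Fin n) (Fin n) R := Q - P with hΔ
  have hPP : P * P = P := by
    rw [hPdef, ← Matrix.map_mul, hP]
  have hPT : Pᵀ = P := by
    rw [hPdef, ← Matrix.transpose_map, hPt]
  have hΔm : ∀ a b, Δ a b ∈ m := hm
  have hΔt : Δᵀ = Δ := by
    rw [hΔ, Matrix.transpose_sub, hQt, hPT]
  have hdec : Δ = P * Δ + Δ * P + Δ * Δ := by
    have hQ' : Q = P + Δ := by rw [hΔ]; abel
    have h1 : (P + Δ) * (P + Δ) = P + Δ := by rw [← hQ']; exact hQ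
    have h2 : (P + Δ) * (P + Δ) = P + (P * Δ + Δ * P + Δ * Δ) := by
      rw [Matrix.add_mul, Matrix.mul_add, Matrix.mul_add, hPP]
      abel
    rw [h2] at h1
    exact (add_left_cancel h1).symm
  have hsq : ∀ a b, (Δ * Δ) a b ∈ m ^ 2 := by
    intro a b
    rw [Matrix.mul_apply, pow_two]
    exact Ideal.sum_mem _ fun j _ => Ideal.mul_mem_mul (hΔm _ _) (hΔm _ _)
  have hPv : ∀ z : Fin n → ℝ, (P *ᵥ fun q => phi R (z q)) = fun q => phi R ((P₁ *ᵥ z) q) := by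
    intro z
    funext i
    rw [RingHom.map_mulVec]
    rfl
  -- the main computation
  have key : ∀ a b : Fin n → R, a ⬝ᵥ (Δ *ᵥ b) =
      (P *ᵥ a) ⬝ᵥ (Δ *ᵥ b) + a ⬝ᵥ (Δ *ᵥ (P *ᵥ b)) + a ⬝ᵥ ((Δ * Δ) *ᵥ b) := by
    intro a b
    conv_lhs => rw [hdec]
    rw [Matrix.add_mulVec, Matrix.add_mulVec, dotProduct_add, dotProduct_add]
    congr 2
    · rw [← Matrix.mulVec_mulVec, Matrix.dotProduct_mulVec, ← Matrix.mulVec_transpose, hPT]
    · rw [Matrix.mulVec_mulVec]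
  have hbil : ∀ v w : Fin n → ℝ, ∑ p, ∑ q, algebraMap ℂ R ((v p : ℂ) * (w q : ℂ)) *
      (Q p q - algebraMap ℂ R (P₁ p q : ℂ)) =
      (fun p => phi R (v p)) ⬝ᵥ (Δ *ᵥ fun q => phi R (w q)) := fun v w => bil_eq Δ v w
  have hmem : ∀ a b : Fin n → R, a ⬝ᵥ ((Δ * Δ) *ᵥ b) ∈ m ^ 2 := fun a b =>
    dot_mem _ _ _ fun i => mulVec_mem _ _ _ hsq i
  refine ⟨?_, ?_, ?_⟩
  · intro h1 h2
    rw [hbil]
    have h3 := key (fun p => phi R (v p)) (fun q => phi R (w q))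
    rw [hPv, hPv, h1, h2] at h3
    have h4 : (fun p => phi R (v p)) ⬝ᵥ (Δ *ᵥ fun q => phi R (w q)) =
        - ((fun p => phi R (v p)) ⬝ᵥ ((Δ * Δ) *ᵥ fun q => phi R (w q))) := by
      linear_combination -h3
    rw [h4]
    exact neg_mem (hmem _ _)
  · intro h1 h2
    rw [hbil]
    have h3 := key (fun p => phi R (v p)) (fun q => phi R (w q))
    rw [hPv, hPv, h1, h2] at h3
    have h5 : (fun q : Fin n => phi R ((0 : Fin n → ℝ) q)) = 0 := by
      funext i; simp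
    rw [h5, zero_dotProduct, Matrix.mulVec_zero, dotProduct_zero, zero_add, zero_add] at h3
    rw [h3]
    exact hmem _ _
  · rw [hbil, hbil, Matrix.dotProduct_mulVec, ← Matrix.mulVec_transpose, hΔt, dotProduct_comm]

end Pool.Agent.R806.GR
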