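import Pool.Agent.R806.GR.Blk

/-!
# MP_57d9fd_an, piece C1: reduction to the off diagonal blocks
-/

open scoped Matrix

namespace Pool.Agent.R806.GR

open Pool.Agent.R161.GR

theorem prod_add_sub {R : Type} [CommRing R] (m : Ideal R) {ι : Type} [DecidableEq ι]
    (a r : ι → R) (ha : ∀ i, a i ∈ m) (hr : ∀ i, r i ∈ m ^ 2) (s : Finset ι) :
    ∏ i ∈ s, (a i + r i) - ∏ i ∈ s, a i ∈ m ^ (s.card + 1) := by
  induction s using Finset.induction_on with
  | empty => simp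
  | insert j s hj ih =>
    rw [Finset.prod_insert hj, Finset.prod_insert hj, Finset.card_insert_of_notMem hj]
    have hp : ∏ i ∈ s, (a i + r i) ∈ m ^ s.card := by
      have : ∏ i ∈ s, (a i + r i) ∈ ∏ i ∈ s, m := by
        refine Ideal.prod_mem_prod fun i _ => ?_
        exact Ideal.add_mem _ (ha i) (Ideal.pow_le_self two_ne_zero (hr i))
      rwa [Finset.prod_const] at this
    have h1 : a j * (∏ i ∈ s, (a i + r i) - ∏ i ∈ s, a i) ∈ m ^ (s.card + 1 + 1) := by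
      rw [pow_succ' m (s.card + 1)]
      exact Ideal.mul_mem_mul (ha j) ih
    have h2 : r j * ∏ i ∈ s, (a i + r i) ∈ m ^ (s.card + 1 + 1) := by
      have e : s.card + 1 + 1 = 2 + s.card := by ring
      rw [e, pow_add]
      exact Ideal.mul_mem_mul (hr j) hp
    have := Ideal.add_mem _ h1 h2
    convert this using 1
    ring

theorem s_c1 (hblk : S_blk) : S_c1 := by
  intro n P₁ hP hPt R _ _ Q hQ hQt m hm g d hg s hs
  classical
  -- the bilinear form
  let B : (Fin n → ℝ) → (Fin n → ℝ) → R := fun v w =>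
    ∑ p, ∑ q, algebraMap ℂ R ((v p : ℂ) * (w q : ℂ)) * (Q p q - algebraMap ℂ R (P₁ p q : ℂ))
  have hB : ∀ v w, B v w = ∑ p, ∑ q, algebraMap ℂ R ((v p : ℂ) * (w q : ℂ)) *
      (Q p q - algebraMap ℂ R (P₁ p q : ℂ)) := fun _ _ => rfl
  have hBadd : ∀ v v' w w', B (v + v') (w + w') = B v w + B v w' + B v' w + B v' w' := by
    intro v v' w w'
    simp only [hB, ← Finset.sum_add_distrib]
    refine Finset.sum_congr rfl fun p _ => Finset.sum_congr rfl fun q _ => ?_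
    simp only [Pi.add_apply, Complex.ofReal_add, map_mul, map_add]
    ring
  have hBm : ∀ v w, B v w ∈ m := by
    intro v w
    rw [hB]
    exact Ideal.sum_mem _ fun p _ => Ideal.sum_mem _ fun q _ => Ideal.mul_mem_left _ _ (hm p q)
  have hBs : ∀ a b : Fin n, Q a b - algebraMap ℂ R (P₁ a b : ℂ) =
      B (Pi.single a 1) (Pi.single b 1) := by
    intro a b
    rw [hB, Finset.sum_eq_single a, Finset.sum_eq_single b]
    · simp
    · intro q _ hq
      simp [hq]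
    · simp
    · intro p _ hp
      refine Finset.sum_eq_zero fun q _ => ?_
      simp [hp]
    · simp
  have hb1 : ∀ v w : Fin n → ℝ, P₁.mulVec v = v → P₁.mulVec w = w → B v w ∈ m ^ 2 :=
    fun v w => (hblk n P₁ hP hPt R Q hQ hQt m hm v w).1
  have hb2 : ∀ v w : Fin n → ℝ, P₁.mulVec v = 0 → P₁.mulVec w = 0 → B v w ∈ m ^ 2 :=
    fun v w => (hblk n P₁ hP hPt R Q hQ hQt m hm v w).2.1
  have hb3 : ∀ v w : Fin n → ℝ, B v w = B w v :=
    fun v w => (hblk n P₁ hP hPt R Q hQ hQt m hm v w).2.2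
  -- the two components of the basis vectors
  let X0 : Fin n → Fin n → ℝ := fun a => P₁ *ᵥ Pi.single a 1
  let Y0 : Fin n → Fin n → ℝ := fun a => Pi.single a 1 - P₁ *ᵥ Pi.single a 1
  have hX0 : ∀ a, P₁ *ᵥ X0 a = X0 a := by
    intro a
    show P₁ *ᵥ (P₁ *ᵥ _) = P₁ *ᵥ _
    rw [Matrix.mulVec_mulVec, hP]
  have hY0 : ∀ a, P₁ *ᵥ Y0 a = 0 := by
    intro a
    show P₁ *ᵥ (_ - P₁ *ᵥ _) = 0
    rw [Matrix.mulVec_sub, Matrix.mulVec_mulVec, hP, sub_self]
  have hsum : ∀ a : Fin n, (Pi.single a 1 : Fin n → ℝ) = X0 a + Y0 a := by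
    intro a
    show _ = P₁ *ᵥ _ + (_ - P₁ *ᵥ _)
    abel
  let Yc : Fin d → Bool → Fin n → ℝ := fun i c => if c then Y0 (s i).1 else Y0 (s i).2
  let Xc : Fin d → Bool → Fin n → ℝ := fun i c => if c then X0 (s i).2 else X0 (s i).1
  let w : Fin d → Bool → R := fun i c => B (Yc i c) (Xc i c)
  let r : Fin d → R := fun i => B (X0 (s i).1) (X0 (s i).2) + B (Y0 (s i).1) (Y0 (s i).2)
  have hδ : ∀ i, Q (s i).1 (s i).2 - algebraMap ℂ R (P₁ (s i).1 (s i).2 : ℂ) =
      (∑ c : Bool, w i c) + r i := by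
    intro i
    rw [hBs, hsum, hsum, hBadd, Fintype.sum_bool, hb3 (X0 (s i).1) (Y0 (s i).2)]
    show _ = B (Y0 (s i).1) (X0 (s i).2) + B (Y0 (s i).2) (X0 (s i).1) +
      (B (X0 (s i).1) (X0 (s i).2) + B (Y0 (s i).1) (Y0 (s i).2))
    ring
  have hr : ∀ i, r i ∈ m ^ 2 := fun i =>
    Ideal.add_mem _ (hb1 _ _ (hX0 _) (hX0 _)) (hb2 _ _ (hY0 _) (hY0 _))
  have hw : ∀ i, ∑ c : Bool, w i c ∈ m := fun i => Ideal.sum_mem _ fun c _ => hBm _ _
  have hmain := prod_add_sub m (fun i => ∑ c : Bool, w i c) r hw hr (Finset.univ : Finset (Fin d))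
  rw [Finset.card_univ, Fintype.card_fin] at hmain
  have hg0 := hg _ hmain
  rw [map_sub, sub_eq_zero] at hg0
  have hs' : g (∏ i, ((∑ c : Bool, w i c) + r i)) ≠ 0 := by
    rw [Finset.prod_congr rfl fun i _ => hδ i] at hs
    exact hs
  rw [hg0, Fintype.prod_sum, map_sum] at hs'
  obtain ⟨c, _, hc⟩ := Finset.exists_ne_zero_of_sum_ne_zero hs'
  refine ⟨fun i => Xc i (c i), fun i => Yc i (c i), ?_, ?_, hc⟩
  · intro i
    show P₁ *ᵥ (if c i then X0 (s i).2 else X0 (s i).1) = (if c i then X0 (s i).2 else X0 (s i).1)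
    split_ifs
    · exact hX0 _
    · exact hX0 _
  · intro i
    show P₁ *ᵥ (if c i then Y0 (s i).1 else Y0 (s i).2) = 0
    split_ifs
    · exact hY0 _
    · exact hY0 _

end Pool.Agent.R806.GR
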