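import Pool.Agent.R161.GR.Defs

/-!
# MP_57d9fd_an, piece C2: polarization
-/

namespace Pool.Agent.R806.GR

open Pool.Agent.R161.GR

/-- polarization identity -/
theorem polar {R : Type} [CommRing R] (d : ℕ) (v : Fin d → R) :
    ∃ N : ℕ, N ≠ 0 ∧ (N : R) * ∏ i, v i =
      ∑ ε : Fin d → Bool, (∏ j, (if ε j then (1 : R) else -1)) *
        (∑ i, (if ε i then (1 : R) else 0) * v i) ^ d := by
  classical
  have h1 : ∀ ε : Fin d → Bool, (∑ i, (if ε i then (1 : R) else 0) * v i) ^ d =
      ∑ f : Fin d → Fin d, (∏ k, (if ε (f k) then (1 : R) else 0)) * ∏ k, v (f k) := by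
    intro ε
    rw [Fintype.sum_pow]
    exact Finset.sum_congr rfl fun f _ => Finset.prod_mul_distrib
  have h2 : ∀ f : Fin d → Fin d, ∑ ε : Fin d → Bool, (∏ j, (if ε j then (1 : R) else -1)) *
      (∏ k, (if ε (f k) then (1 : R) else 0)) =
      if Function.Surjective f then 1 else 0 := by
    intro f
    have e1 : ∀ ε : Fin d → Bool, (∏ j, (if ε j then (1 : R) else -1)) *
        (∏ k, (if ε (f k) then (1 : R) else 0)) =
        ∏ j, ((if ε j then (1 : R) else -1) *
          (if ε j then (1 : R) else 0) ^ (Finset.univ.filter fun k => f k = j).card) := by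
      intro ε
      rw [Finset.prod_mul_distrib]
      congr 1
      rw [← Finset.prod_fiberwise Finset.univ f]
      refine Finset.prod_congr rfl fun j _ => ?_
      rw [← Finset.prod_const]
      refine Finset.prod_congr rfl fun k hk => ?_
      rw [(Finset.mem_filter.1 hk).2]
    simp_rw [e1]
    rw [← Fintype.prod_sum (fun (j : Fin d) (e : Bool) => (if e then (1 : R) else -1) *
          (if e then (1 : R) else 0) ^ (Finset.univ.filter fun k => f k = j).card)]
    have e2 : ∀ j : Fin d, ∑ e : Bool, ((if e then (1 : R) else -1) *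
          (if e then (1 : R) else 0) ^ (Finset.univ.filter fun k => f k = j).card) =
        if ∃ k, f k = j then 1 else 0 := by
      intro j
      rw [Fintype.sum_bool]
      by_cases h : ∃ k, f k = j
      · have hc : (Finset.univ.filter fun k => f k = j).card ≠ 0 := by
          obtain ⟨k, hk⟩ := h
          rw [Finset.card_ne_zero]
          exact ⟨k, by simp [hk]⟩
        rw [if_pos h]
        simp [hc]
      · rw [if_neg h]
        have hc : (Finset.univ.filter fun k => f k = j).card = 0 := by
          rw [Finset.card_eq_zero, Finset.filter_eq_empty_iff]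
          intro k _ hk
          exact h ⟨k, hk⟩
        simp [hc]
    rw [Finset.prod_congr rfl fun j _ => e2 j]
    by_cases hs : Function.Surjective f
    · rw [if_pos hs]
      exact Finset.prod_eq_one fun j _ => if_pos (hs j)
    · rw [if_neg hs]
      unfold Function.Surjective at hs
      push Not at hs
      obtain ⟨j, hj⟩ := hs
      refine Finset.prod_eq_zero (Finset.mem_univ j) (if_neg ?_)
      rintro ⟨k, hk⟩
      exact hj k hk
  refine ⟨(Finset.univ.filter fun f : Fin d → Fin d => Function.Surjective f).card, ?_, ?_⟩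
  · rw [Finset.card_ne_zero]
    exact ⟨id, by simp [Function.surjective_id]⟩
  · simp_rw [h1, Finset.mul_sum]
    rw [Finset.sum_comm]
    have h3 : ∀ f : Fin d → Fin d, ∑ ε : Fin d → Bool, (∏ j, (if ε j then (1 : R) else -1)) *
        ((∏ k, (if ε (f k) then (1 : R) else 0)) * ∏ k, v (f k)) =
        if Function.Surjective f then ∏ i, v i else 0 := by
      intro f
      simp_rw [← mul_assoc]
      rw [← Finset.sum_mul, h2 f]
      by_cases hs : Function.Surjective f
      · rw [if_pos hs, if_pos hs, one_mul]
        have hb : Function.Bijective f := Finite.surjective_iff_bijective.1 hs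
        exact Function.Bijective.prod_comp hb v
      · rw [if_neg hs, if_neg hs, zero_mul]
    rw [Finset.sum_congr rfl fun f _ => h3 f, ← Finset.sum_filter, Finset.sum_const, nsmul_eq_mul]

theorem s_c2 : S_c2 := by
  intro R _ _ g d v hg
  by_contra hcon
  push Not at hcon
  obtain ⟨N, hN, hp⟩ := polar d v
  apply hg
  have h1 : g ((N : R) * ∏ i, v i) = 0 := by
    rw [hp, map_sum]
    refine Finset.sum_eq_zero fun ε _ => ?_
    have h2 : (∏ j, (if ε j then (1 : R) else -1)) *
        (∑ i, (if ε i then (1 : R) else 0) * v i) ^ d =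
        (∏ j, (if ε j then (1 : ℂ) else -1)) •
        (∑ i, algebraMap ℂ R (((if ε i then (1 : ℝ) else 0 : ℝ)) : ℂ) * v i) ^ d := by
      rw [Algebra.smul_def, map_prod]
      congr 1
      · refine Finset.prod_congr rfl fun j _ => ?_
        split_ifs <;> simp
      · congr 1
        refine Finset.sum_congr rfl fun j _ => ?_
        split_ifs <;> simp
    rw [h2, map_smul, hcon, smul_zero]
  have h3 : (N : R) * ∏ i, v i = (N : ℂ) • ∏ i, v i := by
    rw [Algebra.smul_def]; simp
  rw [h3, map_smul, smul_eq_mul] at h1
  rcases mul_eq_zero.1 h1 with h | h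
  · exact absurd (by exact_mod_cast h) hN
  · exact h

end Pool.Agent.R806.GR
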