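import Pool.Agent.R161.GR.Defs

/-!
# MP_57d9fd_an, piece DET: first order expansion of the determinant
-/

namespace Pool.Agent.R806.GR

open Pool.Agent.R161.GR

theorem prod_one_add {R : Type} [CommRing R] (m : Ideal R) {ι : Type} [DecidableEq ι]
    (a : ι → R) (ha : ∀ i, a i ∈ m) (s : Finset ι) :
    ∏ i ∈ s, (1 + a i) - 1 - ∑ i ∈ s, a i ∈ m ^ 2 := by
  induction s using Finset.induction_on with
  | empty => simp
  | insert j s hj ih =>
    rw [Finset.prod_insert hj, Finset.sum_insert hj]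
    have h1 : ∏ i ∈ s, (1 + a i) - 1 ∈ m := by
      have h2 : ∏ i ∈ s, (1 + a i) - 1 - ∑ i ∈ s, a i ∈ m :=
        Ideal.pow_le_self (two_ne_zero) ih
      have h3 : ∑ i ∈ s, a i ∈ m := Ideal.sum_mem _ fun i _ => ha i
      have := Ideal.add_mem _ h2 h3
      simpa using this
    have h4 : a j * (∏ i ∈ s, (1 + a i) - 1) ∈ m ^ 2 := by
      rw [pow_two]
      exact Ideal.mul_mem_mul (ha j) h1
    have := Ideal.add_mem _ ih h4
    convert this using 1
    ring

theorem s_det : S_det := by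
  intro R _ ι _ _ m W hW
  classical
  rw [Matrix.det_apply]
  have h1 : ∑ σ : Equiv.Perm ι, Equiv.Perm.sign σ • ∏ i, (1 + W) (σ i) i =
      ∏ i, (1 + W i i) + ∑ σ ∈ Finset.univ.erase (1 : Equiv.Perm ι),
        Equiv.Perm.sign σ • ∏ i, (1 + W) (σ i) i := by
    rw [← Finset.add_sum_erase _ _ (Finset.mem_univ (1 : Equiv.Perm ι))]
    simp
  rw [h1]
  have h2 : ∑ σ ∈ Finset.univ.erase (1 : Equiv.Perm ι),
        Equiv.Perm.sign σ • ∏ i, (1 + W) (σ i) i ∈ m ^ 2 := by
    refine Ideal.sum_mem _ fun σ hσ => ?_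
    have hσ1 : σ ≠ 1 := (Finset.mem_erase.1 hσ).1
    obtain ⟨i, hi⟩ : ∃ i, σ i ≠ i := by
      by_contra h
      push Not at h
      exact hσ1 (Equiv.ext h)
    have hj : σ (σ i) ≠ σ i := fun h => hi (σ.injective h)
    have h3 : ∏ l, (1 + W) (σ l) l ∈ m ^ 2 := by
      rw [← Finset.mul_prod_erase _ _ (Finset.mem_univ i),
        ← Finset.mul_prod_erase _ _ (Finset.mem_erase.2 ⟨hi, Finset.mem_univ (σ i)⟩), ← mul_assoc]
      refine Ideal.mul_mem_right _ _ ?_
      rw [pow_two]
      refine Ideal.mul_mem_mul ?_ ?_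
      · rw [Matrix.add_apply, Matrix.one_apply_ne hi, zero_add]
        exact hW _ _
      · rw [Matrix.add_apply, Matrix.one_apply_ne hj, zero_add]
        exact hW _ _
    rcases Int.units_eq_one_or (Equiv.Perm.sign σ) with h | h
    · rw [h, one_smul]; exact h3
    · rw [h, Units.neg_smul, one_smul]
      exact neg_mem h3
  have h4 := prod_one_add m (fun i => W i i) (fun i => hW i i) Finset.univ
  have := Ideal.add_mem _ h4 h2
  convert this using 1
  simp only [Matrix.trace, Matrix.diag]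
  ring

end Pool.Agent.R806.GR
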